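import Pool.Agent.H9.RQ.Tr

/-!
# RQ: power diagrams of separated trees (MP_bd0985_co, helper1)

`AchMin v t f`: the assignment `f` of items to leaves of `t` is a lower power diagram,
`AchMax v t f`: an upper one.  `Sep v t`: at every node the differences `v l - v k`
(`l` right, `k` left) increase along one strict order of the items.  Separated trees are good
for both notions.
-/

set_option autoImplicit false

namespace Pool.Agent.H9.RQ

variable {ι E : Type}

/-- Lower power diagrams. -/
def AchMin (v : ι → E → ℝ) (t : Tr ι) (f : E → ι) : Prop :=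
  (∀ i, Tr.Mem (f i) t) ∧ ∃ V : E → ℝ, ∀ i j, V j - V i ≤ v (f i) j - v (f i) i

/-- Upper power diagrams. -/
def AchMax (v : ι → E → ℝ) (t : Tr ι) (f : E → ι) : Prop :=
  (∀ i, Tr.Mem (f i) t) ∧ ∃ V : E → ℝ, ∀ i j, v (f i) j - v (f i) i ≤ V j - V i

/-- The differences of the values at the right leaves and the values at the left leaves increase
along one strict order, at every node. -/
def Sep (v : ι → E → ℝ) : Tr ι → Prop
  | Tr.leaf _ => True
  | Tr.node a b => Sep v a ∧ Sep v b ∧ ∃ o : E → ℝ, Function.Injective o ∧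
      ∀ k, Tr.Mem k a → ∀ l, Tr.Mem l b → ∀ i j, o i < o j → v l i - v k i ≤ v l j - v k j

/-- A finite set can be halved along a strict order. -/
theorem exists_halves (o : E → ℝ) (ho : Function.Injective o) (A : Finset E) :
    ∃ Lo Hi : Finset E, (∀ i, i ∈ A ↔ (i ∈ Lo ∨ i ∈ Hi)) ∧ (∀ i, i ∈ Lo → i ∉ Hi) ∧
      2 * Lo.card ≤ A.card + 1 ∧ 2 * Hi.card ≤ A.card + 1 ∧
      ∀ i ∈ Lo, ∀ j ∈ Hi, o i < o j := by
  classical
  set rk : E → ℕ := fun e => (A.filter fun e' => o e' ≤ o e).card with hrk
  set s : ℕ := (A.card + 1) / 2 with hs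
  set Lo : Finset E := A.filter fun e => rk e ≤ s with hLo
  set Hi : Finset E := A.filter fun e => ¬ rk e ≤ s with hHi
  have mLo : ∀ i, i ∈ Lo ↔ i ∈ A ∧ rk i ≤ s := fun i => by rw [hLo, Finset.mem_filter]
  have mHi : ∀ i, i ∈ Hi ↔ i ∈ A ∧ ¬ rk i ≤ s := fun i => by rw [hHi, Finset.mem_filter]
  have hmono : ∀ e e', o e ≤ o e' → rk e ≤ rk e' := by
    intro e e' h
    refine Finset.card_le_card fun x hx => ?_
    rw [Finset.mem_filter] at hx ⊢
    exact ⟨hx.1, hx.2.trans h⟩
  have h1 : Lo.card ≤ s := by
    by_cases h : Lo.Nonempty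
    · obtain ⟨e, he, hmax⟩ := Finset.exists_max_image Lo o h
      refine le_trans ?_ ((mLo e).1 he).2
      refine Finset.card_le_card fun x hx => ?_
      rw [Finset.mem_filter]
      exact ⟨((mLo x).1 hx).1, hmax x hx⟩
    · rw [Finset.not_nonempty_iff_eq_empty] at h
      rw [h]
      simp
  have h2 : Hi.card ≤ A.card - s := by
    by_cases h : Hi.Nonempty
    · obtain ⟨e, he, hmin⟩ := Finset.exists_min_image Hi o h
      have he' := (mHi e).1 he
      have h3 : Hi.card ≤ (A.filter fun x => o e ≤ o x).card :=
        Finset.card_le_card fun x hx => by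
          rw [Finset.mem_filter]
          exact ⟨((mHi x).1 hx).1, hmin x hx⟩
      have h4 : (A.filter fun x => o e ≤ o x).card + rk e ≤ A.card + 1 := by
        rw [hrk]
        simp only
        rw [← Finset.card_union_add_card_inter]
        refine Nat.add_le_add (Finset.card_le_card ?_) ?_
        · exact Finset.union_subset (Finset.filter_subset _ _) (Finset.filter_subset _ _)
        · refine Finset.card_le_one.2 fun x hx y hy => ?_
          rw [Finset.mem_inter, Finset.mem_filter, Finset.mem_filter] at hx hy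
          have hx' : o x = o e := le_antisymm hx.2.2 hx.1.2
          have hy' : o y = o e := le_antisymm hy.2.2 hy.1.2
          exact ho (hx'.trans hy'.symm)
      omega
    · rw [Finset.not_nonempty_iff_eq_empty] at h
      rw [h]
      simp
  refine ⟨Lo, Hi, fun i => ?_, fun i hi hi' => ((mHi i).1 hi').2 ((mLo i).1 hi).2, ?_, ?_,
    fun i hi j hj => ?_⟩
  · rw [mLo, mHi]
    constructor
    · intro h
      by_cases h' : rk i ≤ s
      · exact Or.inl ⟨h, h'⟩
      · exact Or.inr ⟨h, h'⟩
    · rintro (h | h) <;> exact h.1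
  · omega
  · omega
  · by_contra hcon
    have := hmono j i (not_lt.1 hcon)
    exact ((mHi j).1 hj).2 (this.trans ((mLo i).1 hi).2)

/-- Between two finite sets of reals in weak order there is a threshold. -/
lemma exists_thr (D : E → ℝ) (X Y : Finset E) (h : ∀ i ∈ X, ∀ j ∈ Y, D j ≤ D i) :
    ∃ s : ℝ, (∀ i ∈ X, s ≤ D i) ∧ ∀ j ∈ Y, D j ≤ s := by
  classical
  by_cases hX : X.Nonempty
  · refine ⟨X.inf' hX D, fun i hi => Finset.inf'_le D hi, fun j hj => ?_⟩
    exact Finset.le_inf' hX D fun i hi => h i hi j hj
  · rw [Finset.not_nonempty_iff_eq_empty] at hX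
    subst hX
    by_cases hY : Y.Nonempty
    · exact ⟨Y.sup' hY D, fun i hi => absurd hi (Finset.notMem_empty i),
        fun j hj => Finset.le_sup' D hj⟩
    · rw [Finset.not_nonempty_iff_eq_empty] at hY
      subst hY
      exact ⟨0, fun i hi => absurd hi (Finset.notMem_empty i),
        fun i hi => absurd hi (Finset.notMem_empty i)⟩

/-- Separated trees are good for lower power diagrams. -/
theorem good_min (v : ι → E → ℝ) : ∀ t : Tr ι, Sep v t → Tr.Good (AchMin v) t
  | Tr.leaf l, _ => ⟨fun _ => rfl, v l, fun _ _ => le_rfl⟩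
  | Tr.node a b, h => by
      classical
      obtain ⟨ha, hb, o, ho, hab⟩ := h
      refine ⟨good_min v a ha, good_min v b hb, fun f hf => ⟨fun i => Or.inl (hf.1 i), hf.2⟩,
        fun f hf => ⟨fun i => Or.inr (hf.1 i), hf.2⟩, fun A => ?_⟩
      obtain ⟨Lo, Hi, h1, h2, h3, h4, h5⟩ := exists_halves o ho A
      refine ⟨Lo, Hi, h1, h2, h3, h4, ?_⟩
      rintro f0 f1 ⟨hf0, V0, hV0⟩ ⟨hf1, V1, hV1⟩
      have hD : ∀ i j, o i < o j → V0 j - V1 j ≤ V0 i - V1 i := by
        intro i j hij
        have e1 := hV0 i j
        have e2 := hV1 j i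
        have e3 := hab (f0 i) (hf0 i) (f1 j) (hf1 j) i j hij
        linarith
      obtain ⟨s, hs1, hs2⟩ := exists_thr (fun i => V0 i - V1 i) Lo Hi
        fun i hi j hj => hD i j (h5 i hi j hj)
      refine ⟨fun i => if i ∈ Lo then f1 i else if V0 i ≤ V1 i + s then f0 i else f1 i,
        ⟨fun i => ?_, fun i => min (V0 i) (V1 i + s), fun i j => ?_⟩, fun i hi => if_pos hi,
        fun i hi => ?_⟩
      · by_cases g1 : i ∈ Lo
        · simp only [if_pos g1]
          exact Or.inr (hf1 i)
        · by_cases g2 : V0 i ≤ V1 i + s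
          · simp only [if_neg g1, if_pos g2]
            exact Or.inl (hf0 i)
          · simp only [if_neg g1, if_neg g2]
            exact Or.inr (hf1 i)
      · have m0 : min (V0 j) (V1 j + s) ≤ V0 j := min_le_left _ _
        have m1 : min (V0 j) (V1 j + s) ≤ V1 j + s := min_le_right _ _
        by_cases g1 : i ∈ Lo
        · simp only [if_pos g1]
          have e1 : V1 i + s ≤ V0 i := by
            have := hs1 i g1
            linarith
          rw [min_eq_right e1]
          have := hV1 i j
          linarith
        · by_cases g2 : V0 i ≤ V1 i + s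
          · simp only [if_neg g1, if_pos g2]
            rw [min_eq_left g2]
            have := hV0 i j
            linarith
          · simp only [if_neg g1, if_neg g2]
            rw [min_eq_right (not_le.1 g2).le]
            have := hV1 i j
            linarith
      · have g1 : i ∉ Lo := fun h => h2 i h hi
        have g2 : V0 i ≤ V1 i + s := by
          have := hs2 i hi
          linarith
        simp only [if_neg g1, if_pos g2]

/-- Separated trees are good for upper power diagrams. -/
theorem good_max (v : ι → E → ℝ) : ∀ t : Tr ι, Sep v t → Tr.Good (AchMax v) t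
  | Tr.leaf l, _ => ⟨fun _ => rfl, v l, fun _ _ => le_rfl⟩
  | Tr.node a b, h => by
      classical
      obtain ⟨ha, hb, o, ho, hab⟩ := h
      refine ⟨good_max v a ha, good_max v b hb, fun f hf => ⟨fun i => Or.inl (hf.1 i), hf.2⟩,
        fun f hf => ⟨fun i => Or.inr (hf.1 i), hf.2⟩, fun A => ?_⟩
      obtain ⟨Lo, Hi, h1, h2, h3, h4, h5⟩ := exists_halves o ho A
      refine ⟨Hi, Lo, fun i => (h1 i).trans or_comm, fun i hi hi' => h2 i hi' hi, h4, h3, ?_⟩
      rintro f0 f1 ⟨hf0, V0, hV0⟩ ⟨hf1, V1, hV1⟩
      have hD : ∀ i j, o i < o j → V0 j - V1 j ≤ V0 i - V1 i := by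
        intro i j hij
        have e1 := hV0 j i
        have e2 := hV1 i j
        have e3 := hab (f0 j) (hf0 j) (f1 i) (hf1 i) i j hij
        linarith
      obtain ⟨s, hs1, hs2⟩ := exists_thr (fun i => V0 i - V1 i) Lo Hi
        fun i hi j hj => hD i j (h5 i hi j hj)
      refine ⟨fun i => if i ∈ Hi then f1 i else if V1 i + s ≤ V0 i then f0 i else f1 i,
        ⟨fun i => ?_, fun i => max (V0 i) (V1 i + s), fun i j => ?_⟩, fun i hi => if_pos hi,
        fun i hi => ?_⟩
      · by_cases g1 : i ∈ Hi
        · simp only [if_pos g1]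
          exact Or.inr (hf1 i)
        · by_cases g2 : V1 i + s ≤ V0 i
          · simp only [if_neg g1, if_pos g2]
            exact Or.inl (hf0 i)
          · simp only [if_neg g1, if_neg g2]
            exact Or.inr (hf1 i)
      · have m0 : V0 j ≤ max (V0 j) (V1 j + s) := le_max_left _ _
        have m1 : V1 j + s ≤ max (V0 j) (V1 j + s) := le_max_right _ _
        by_cases g1 : i ∈ Hi
        · simp only [if_pos g1]
          have e1 : V0 i ≤ V1 i + s := by
            have := hs2 i g1
            linarith
          rw [max_eq_right e1]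
          have := hV1 i j
          linarith
        · by_cases g2 : V1 i + s ≤ V0 i
          · simp only [if_neg g1, if_pos g2]
            rw [max_eq_left g2]
            have := hV0 i j
            linarith
          · simp only [if_neg g1, if_neg g2]
            rw [max_eq_right (not_le.1 g2).le]
            have := hV1 i j
            linarith
      · have g1 : i ∉ Hi := h2 i hi
        have g2 : V1 i + s ≤ V0 i := by
          have := hs1 i hi
          linarith
        simp only [if_neg g1, if_pos g2]

end Pool.Agent.H9.RQ
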