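import Pool.Agent.H9.RQ.Defs
import Pool.Agent.ROT.Mat

/-!
# RQ: gross substitutes and power diagrams for matchings (helper46)

`count_min`, `count_max`: if `P l` is the unique optimal matching for the item values `v l` and the
spots `a i` form a (lower resp. upper) power diagram of the items, then at most (resp. at least) `m`
items `i` are used at their own spot `a i`.  The proof is one exchange step (`ROT.exch_maps`)
between `P l` and an optimal matching for the values `V` of the power diagram.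
-/

set_option autoImplicit false

namespace Pool.Agent.H9.RQ

open Pool.Agent.ROT

variable {m n : ℕ}

lemma val_eq (w : Fin m → Fin n → ℝ) (v : Fin n → ℝ) (π : Fin m ↪ Fin n) :
    val w v π = ∑ a, w a (π a) + ∑ j ∈ im π, v j := by
  unfold val im
  rw [Finset.sum_add_distrib, Finset.sum_map]

lemma exists_max (hmn : m ≤ n) (w : Fin m → Fin n → ℝ) (V : Fin n → ℝ) :
    ∃ Q : Fin m ↪ Fin n, ∀ σ : Fin m ↪ Fin n, val w V σ ≤ val w V Q := by
  classical
  have : Nonempty (Fin m ↪ Fin n) := ⟨Fin.castLEEmb hmn⟩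
  obtain ⟨Q, -, hQ⟩ := Finset.exists_max_image (Finset.univ : Finset (Fin m ↪ Fin n))
    (fun σ => val w V σ) Finset.univ_nonempty
  exact ⟨Q, fun σ => hQ σ (Finset.mem_univ _)⟩

lemma sum_insert_erase (v : Fin n → ℝ) {S : Finset (Fin n)} {x y : Fin n} (hx : x ∈ S)
    (hy : y ∉ S) : ∑ j ∈ insert y (S.erase x), v j = ∑ j ∈ S, v j - v x + v y := by
  classical
  rw [Finset.sum_insert (fun h => hy (Finset.mem_of_mem_erase h)),
    Finset.sum_erase_eq_sub hx]
  ring

/-- Exchange between a matching `π` and a matching `Q` at an item `i` used by `π` and not by `Q`. -/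
lemma exch_val (w : Fin m → Fin n → ℝ) (u V : Fin n → ℝ) (π Q : Fin m ↪ Fin n) {i : Fin n}
    (hi : i ∈ im π \ im Q) :
    ∃ y ∈ im Q \ im π, ∃ π' Q' : Fin m ↪ Fin n, π' ≠ π ∧ Q' ≠ Q ∧
      val w u π' + val w V Q' = val w u π + val w V Q + (u y - u i) - (V y - V i) := by
  classical
  obtain ⟨y, hy, π', Q', h1, h2, h3⟩ := exch_maps π Q hi
  have hi' := Finset.mem_sdiff.1 hi
  have hy' := Finset.mem_sdiff.1 hy
  refine ⟨y, hy, π', Q', ?_, ?_, ?_⟩
  · rintro rfl
    exact hy'.2 (by rw [h1]; exact Finset.mem_insert_self _ _)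
  · rintro rfl
    exact hi'.2 (by rw [h2]; exact Finset.mem_insert_self _ _)
  · rw [val_eq, val_eq, val_eq, val_eq, h1, h2, sum_insert_erase u hi'.1 hy'.2,
      sum_insert_erase V hy'.1 hi'.2]
    have hw : ∑ a, w a (π' a) + ∑ a, w a (Q' a) = ∑ a, w a (π a) + ∑ a, w a (Q a) := by
      rw [← Finset.sum_add_distrib, ← Finset.sum_add_distrib]
      refine Finset.sum_congr rfl fun a _ => ?_
      rcases h3 a with ⟨h, h'⟩ | ⟨h, h'⟩
      · rw [h, h']
      · rw [h, h', add_comm]
    linarith

/-- Gross substitutes: an item of the unique optimal matching for `u` stays in every optimal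
matching for `V` if the other values do not increase relative to it. -/
lemma used_of_le (w : Fin m → Fin n → ℝ) (u V : Fin n → ℝ) (π Q : Fin m ↪ Fin n)
    (hπ : UO w u π) (hQ : ∀ σ, val w V σ ≤ val w V Q) {i : Fin n}
    (hV : ∀ j, V j - V i ≤ u j - u i) (hi : i ∈ im π) : i ∈ im Q := by
  classical
  by_contra hn
  obtain ⟨y, -, π', Q', h1, -, h3⟩ := exch_val w u V π Q (Finset.mem_sdiff.2 ⟨hi, hn⟩)
  have e1 := hπ π' h1
  have e2 := hQ Q'
  have e3 := hV y
  linarith

lemma unused_of_le (w : Fin m → Fin n → ℝ) (u V : Fin n → ℝ) (π Q : Fin m ↪ Fin n)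
    (hπ : UO w u π) (hQ : ∀ σ, val w V σ ≤ val w V Q) {i : Fin n}
    (hV : ∀ j, u j - u i ≤ V j - V i) (hi : i ∈ im Q) : i ∈ im π := by
  classical
  by_contra hn
  obtain ⟨y, -, Q', π', -, h1, h3⟩ := exch_val w V u Q π (Finset.mem_sdiff.2 ⟨hi, hn⟩)
  have e1 := hπ π' h1
  have e2 := hQ Q'
  have e3 := hV y
  linarith

open Classical in
/-- At most `m` items are used at the spot of their own cell in a lower power diagram. -/
theorem count_min (hmn : m ≤ n) (w : Fin m → Fin n → ℝ) {I : Type} (v : I → Fin n → ℝ)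
    (P : I → (Fin m ↪ Fin n)) (hP : ∀ l, UO w (v l) (P l)) (a : Fin n → I) (V : Fin n → ℝ)
    (hV : ∀ i j, V j - V i ≤ v (a i) j - v (a i) i) :
    (Finset.univ.filter fun i => i ∈ Set.range (P (a i))).card ≤ m := by
  obtain ⟨Q, hQ⟩ := exists_max hmn w V
  calc (Finset.univ.filter fun i => i ∈ Set.range (P (a i))).card
      ≤ (im Q).card := by
        refine Finset.card_le_card fun i hi => ?_
        obtain ⟨b, hb⟩ := (Finset.mem_filter.1 hi).2
        exact used_of_le w (v (a i)) V (P (a i)) Q (hP _) hQ (hV i) (mem_im.2 ⟨b, hb⟩)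
    _ = m := card_im Q

open Classical in
/-- At least `m` items are used at the spot of their own cell in an upper power diagram. -/
theorem count_max (hmn : m ≤ n) (w : Fin m → Fin n → ℝ) {I : Type} (v : I → Fin n → ℝ)
    (P : I → (Fin m ↪ Fin n)) (hP : ∀ l, UO w (v l) (P l)) (a : Fin n → I) (V : Fin n → ℝ)
    (hV : ∀ i j, v (a i) j - v (a i) i ≤ V j - V i) :
    m ≤ (Finset.univ.filter fun i => i ∈ Set.range (P (a i))).card := by
  obtain ⟨Q, hQ⟩ := exists_max hmn w V
  calc m = (im Q).card := (card_im Q).symm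
    _ ≤ (Finset.univ.filter fun i => i ∈ Set.range (P (a i))).card := by
        refine Finset.card_le_card fun i hi => ?_
        obtain ⟨b, hb⟩ := mem_im.1
          (unused_of_le w (v (a i)) V (P (a i)) Q (hP _) hQ (hV i) hi)
        exact Finset.mem_filter.2 ⟨Finset.mem_univ _, b, hb⟩

end Pool.Agent.H9.RQ
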