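import Pool.Agent.H9.RQ.Core
import Pool.Agent.H9.RQ.Ach
import Pool.Agent.H9.RQ.Gs

/-!
# RQ: many sites contain complete separated trees (MP_bd0985_co)

Tree induction from the selection of two separated subfamilies, and the resulting bound for the
number of sites (helper9).
-/

set_option autoImplicit false

namespace Pool.Agent.H9.RQ

variable {ι : Type} {n : ℕ}

/-- If every family of at least `R M` sites contains two separated families of `M` sites, then
every family of `R ^ D` sites contains a complete separated tree of depth `D`. -/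
theorem grow {v : ι → Fin n → ℝ} {S : ι → Finset (Fin n)} {G : Finset ι} {R : ℕ} (hR : 0 < R)
    (hinj : ∀ k ∈ G, ∀ l ∈ G, S k = S l → k = l)
    (hsel : ∀ (F : Finset ι) (M : ℕ), F ⊆ G → R * M ≤ F.card → ∃ G0 G1 : Finset ι, G0 ⊆ F ∧
      G1 ⊆ F ∧ Disjoint G0 G1 ∧ M ≤ G0.card ∧ M ≤ G1.card ∧
        ∃ o : Fin n → ℝ, Function.Injective o ∧ ∀ k ∈ G0, ∀ l ∈ G1, ∀ i j, o i < o j →
          v l i - v k i ≤ v l j - v k j) :
    ∀ (D : ℕ) (F : Finset ι), F ⊆ G → R ^ D ≤ F.card →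
      ∃ t : Tr ι, Tr.Full D t ∧ Sep v t ∧ Dis S t ∧ ∀ l, Tr.Mem l t → l ∈ F
  | 0, F, _, hF => by
      rw [pow_zero] at hF
      obtain ⟨l, hl⟩ := Finset.card_pos.1 (by omega : 0 < F.card)
      exact ⟨Tr.leaf l, trivial, trivial, trivial, fun k hk => by
        have hk' : k = l := hk
        rw [hk']; exact hl⟩
  | D + 1, F, hFG, hF => by
      obtain ⟨G0, G1, h0, h1, hd, hc0, hc1, o, ho, hab⟩ := hsel F (R ^ D) hFG
        (by rw [← pow_succ']; exact hF)
      obtain ⟨a, ha1, ha2, ha3, ha4⟩ := grow hR hinj hsel D G0 (h0.trans hFG) hc0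
      obtain ⟨b, hb1, hb2, hb3, hb4⟩ := grow hR hinj hsel D G1 (h1.trans hFG) hc1
      refine ⟨Tr.node a b, ⟨ha1, hb1⟩,
        ⟨ha2, hb2, o, ho, fun k hk l hl => hab k (ha4 k hk) l (hb4 l hl)⟩,
        ⟨ha3, hb3, fun k hk l hl hkl => ?_⟩, fun l hl => ?_⟩
      · have e := hinj k (hFG (h0 (ha4 k hk))) l (hFG (h1 (hb4 l hl))) hkl
        subst e
        exact Finset.disjoint_left.1 hd (ha4 k hk) (hb4 k hl)
      · rcases hl with hl | hl
        · exact h0 (ha4 l hl)
        · exact h1 (hb4 l hl)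

/-- Bound for the number of sites with different unique optimal item sets, from a selection
hypothesis. -/
theorem card_lt_of_sel {m q : ℕ} (hmn : m ≤ n) (hn : n ≤ 2 ^ q) (w : Fin m → Fin n → ℝ)
    {v : ι → Fin n → ℝ} {P : ι → (Fin m ↪ Fin n)} (hP : ∀ l, UO w (v l) (P l)) {G : Finset ι}
    {R : ℕ} (hR : 0 < R)
    (hinj : ∀ k ∈ G, ∀ l ∈ G, Set.range (P k) = Set.range (P l) → k = l)
    (hsel : ∀ (F : Finset ι) (M : ℕ), F ⊆ G → R * M ≤ F.card → ∃ G0 G1 : Finset ι, G0 ⊆ F ∧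
      G1 ⊆ F ∧ Disjoint G0 G1 ∧ M ≤ G0.card ∧ M ≤ G1.card ∧
        ∃ o : Fin n → ℝ, Function.Injective o ∧ ∀ k ∈ G0, ∀ l ∈ G1, ∀ i j, o i < o j →
          v l i - v k i ≤ v l j - v k j) :
    G.card < R ^ (27 * q ^ 3 + 1) := by
  classical
  by_contra hcon
  push Not at hcon
  let S : ι → Finset (Fin n) := fun l => Finset.univ.map (P l)
  have hSr : ∀ l i, i ∈ S l ↔ i ∈ Set.range (P l) := by
    intro l i
    simp [S]
  have hinjS : ∀ k ∈ G, ∀ l ∈ G, S k = S l → k = l := by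
    intro k hk l hl h
    refine hinj k hk l hl (Set.ext fun i => ?_)
    rw [← hSr, ← hSr, h]
  obtain ⟨t, ht1, ht2, ht3, -⟩ := grow hR hinjS hsel (27 * q ^ 3 + 1) G subset_rfl hcon
  refine no_full' (S := S) (m := m) hn (fun l => by simp [S]) (Amin := AchMin v)
    (Amax := AchMax v) (fun t f h => h.1) (fun t f h => h.1) ?_ ?_ (good_min v t ht2)
    (good_max v t ht2) ht3 ht1
  · rintro t f ⟨-, V, hV⟩
    have h := count_min hmn w v P hP f V hV
    refine le_trans (le_of_eq ?_) h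
    congr 1
    ext i
    simp only [Finset.mem_filter, Finset.mem_univ, true_and]
    exact hSr _ _
  · rintro t f ⟨-, V, hV⟩
    have h := count_max hmn w v P hP f V hV
    refine le_trans h (le_of_eq ?_)
    congr 1
    ext i
    simp only [Finset.mem_filter, Finset.mem_univ, true_and]
    exact (hSr _ _).symm

end Pool.Agent.H9.RQ
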