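import Mathlib

/-!
# RQ: planar selection (MP_bd0985_co, helper3)

Among `2 ^ (r + 1) * M` points of the plane there are two disjoint families of size `M` such that
all differences (point of the second family minus point of the first family) order the `n`
linear functionals `(p i, s i)` in the same way.
-/

set_option autoImplicit false

namespace Pool.Agent.H9.RQ

/-- The `K` smallest elements. -/
theorem exists_low {I : Type} (A : Finset I) (h : I → ℝ) (K : ℕ) (hK : K ≤ A.card) :
    ∃ A0 ⊆ A, A0.card = K ∧ ∀ k ∈ A0, ∀ l ∈ A, l ∉ A0 → h k ≤ h l := by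
  classical
  induction K with
  | zero => exact ⟨∅, Finset.empty_subset _, rfl, fun k hk => absurd hk (Finset.notMem_empty k)⟩
  | succ K ih =>
    obtain ⟨A0, hA0, hc, hlow⟩ := ih (by omega)
    have hne : (A \ A0).Nonempty := by
      rw [← Finset.card_pos, Finset.card_sdiff_of_subset hA0]
      omega
    obtain ⟨l0, hl0, hmin⟩ := Finset.exists_min_image (A \ A0) h hne
    rw [Finset.mem_sdiff] at hl0
    refine ⟨insert l0 A0, Finset.insert_subset hl0.1 hA0, ?_, ?_⟩
    · rw [Finset.card_insert_of_notMem hl0.2, hc]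
    · intro k hk l hl hl'
      rw [Finset.mem_insert, not_or] at hl'
      rcases Finset.mem_insert.1 hk with rfl | hk
      · exact hmin l (Finset.mem_sdiff.2 ⟨hl, hl'.2⟩)
      · exact hlow k hk l hl hl'.2

/-- A finite set of even size is cut into two halves by a value of `h`. -/
theorem exists_cut {I : Type} (A : Finset I) (h : I → ℝ) (K : ℕ) (hK : 2 * K ≤ A.card) :
    ∃ A0 ⊆ A, ∃ A1 ⊆ A, Disjoint A0 A1 ∧ K ≤ A0.card ∧ K ≤ A1.card ∧
      ∃ μ : ℝ, (∀ k ∈ A0, h k ≤ μ) ∧ ∀ k ∈ A1, μ ≤ h k := by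
  classical
  rcases Nat.eq_zero_or_pos K with rfl | hpos
  · exact ⟨∅, Finset.empty_subset _, ∅, Finset.empty_subset _, Finset.disjoint_empty_left _,
      le_refl _, le_refl _, 0, fun k hk => absurd hk (Finset.notMem_empty k),
      fun k hk => absurd hk (Finset.notMem_empty k)⟩
  obtain ⟨A0, hA0, hc, hlow⟩ := exists_low A h K (by omega)
  have hne : A0.Nonempty := by
    rw [← Finset.card_pos, hc]
    exact hpos
  obtain ⟨k0, hk0, hmax⟩ := Finset.exists_max_image A0 h hne
  refine ⟨A0, hA0, A \ A0, Finset.sdiff_subset, Finset.disjoint_sdiff, hc.ge, ?_, h k0, hmax, ?_⟩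
  · rw [Finset.card_sdiff_of_subset hA0]
    omega
  · intro l hl
    rw [Finset.mem_sdiff] at hl
    exact hlow k0 hk0 l hl.1 hl.2

/-- Two families of size `2 K` contain subfamilies of size `K` which are comparable. -/
theorem exists_half {I : Type} (A B : Finset I) (h : I → ℝ) (K : ℕ) (hA : 2 * K ≤ A.card)
    (hB : 2 * K ≤ B.card) :
    ∃ A' ⊆ A, ∃ B' ⊆ B, K ≤ A'.card ∧ K ≤ B'.card ∧
      ((∀ k ∈ A', ∀ l ∈ B', h k ≤ h l) ∨ ∀ k ∈ A', ∀ l ∈ B', h l ≤ h k) := by
  obtain ⟨A0, hA0, A1, hA1, -, cA0, cA1, μ, hμ0, hμ1⟩ := exists_cut A h K hA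
  obtain ⟨B0, hB0, B1, hB1, -, cB0, cB1, ν, hν0, hν1⟩ := exists_cut B h K hB
  rcases le_total μ ν with hle | hle
  · exact ⟨A0, hA0, B1, hB1, cA0, cB1,
      Or.inl fun k hk l hl => (hμ0 k hk).trans (hle.trans (hν1 l hl))⟩
  · exact ⟨A1, hA1, B0, hB0, cA1, cB0,
      Or.inr fun k hk l hl => (hν0 l hl).trans (hle.trans (hμ1 k hk))⟩

/-- Binary search for a slope which is not critical. -/
theorem exists_slope {I : Type} (x y : I → ℝ) (M : ℕ) (r : ℕ) :
    ∀ (a b : ℝ) (_ : a < b) (C : Finset ℝ) (_ : ∀ c ∈ C, a < c ∧ c < b) (_ : C.card < 2 ^ r)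
      (G0 G1 : Finset I) (_ : 2 ^ r * M ≤ G0.card) (_ : 2 ^ r * M ≤ G1.card)
      (_ : ∀ k ∈ G0, ∀ l ∈ G1, x k ≤ x l),
    ∃ H0 ⊆ G0, ∃ H1 ⊆ G1, M ≤ H0.card ∧ M ≤ H1.card ∧ ∃ σ : ℝ, a < σ ∧ σ < b ∧ σ ∉ C ∧
      ∀ c ∈ C, (c < σ → ∀ k ∈ H0, ∀ l ∈ H1, c * (x l - x k) ≤ y l - y k) ∧
        (σ < c → ∀ k ∈ H0, ∀ l ∈ H1, y l - y k ≤ c * (x l - x k)) := by
  classical
  induction r with
  | zero =>
    intro a b hab C hC hcard G0 G1 h0 h1 hx
    have hCe : C = ∅ := by
      rw [← Finset.card_eq_zero]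
      simpa using hcard
    subst hCe
    refine ⟨G0, Finset.Subset.refl _, G1, Finset.Subset.refl _, by simpa using h0,
      by simpa using h1, (a + b) / 2, by linarith, by linarith, Finset.notMem_empty _, ?_⟩
    intro c hc
    exact absurd hc (Finset.notMem_empty c)
  | succ r ih =>
    intro a b hab C hC hcard G0 G1 h0 h1 hx
    rcases C.eq_empty_or_nonempty with rfl | hne
    · have hle : M ≤ 2 ^ (r + 1) * M := Nat.le_mul_of_pos_left M (by positivity)
      refine ⟨G0, Finset.Subset.refl _, G1, Finset.Subset.refl _, hle.trans h0,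
        hle.trans h1, (a + b) / 2, by linarith, by linarith, Finset.notMem_empty _, ?_⟩
      intro c hc
      exact absurd hc (Finset.notMem_empty c)
    · -- the median critical slope
      have hpos : 0 < C.card := Finset.card_pos.2 hne
      set e := C.orderEmbOfFin rfl with he
      set i0 : Fin C.card := ⟨C.card / 2, Nat.div_lt_self hpos (by norm_num)⟩ with hi0
      set c0 : ℝ := e i0 with hc0
      have hc0C : c0 ∈ C := Finset.orderEmbOfFin_mem C rfl i0
      have hmem : ∀ c ∈ C, ∃ j, e j = c := by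
        intro c hc
        have : c ∈ Set.range e := by
          rw [he, Finset.range_orderEmbOfFin]
          exact hc
        exact this
      have hlo : (C.filter fun c => c < c0).card < 2 ^ r := by
        have h2 : (C.filter fun c => c < c0) ⊆ (Finset.Iio i0).image e := by
          intro c hc
          rw [Finset.mem_filter] at hc
          obtain ⟨j, rfl⟩ := hmem c hc.1
          exact Finset.mem_image_of_mem _ (Finset.mem_Iio.2 (e.lt_iff_lt.1 hc.2))
        have h3 := (Finset.card_le_card h2).trans Finset.card_image_le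
        rw [Fin.card_Iio] at h3
        have h4 : (i0 : ℕ) = C.card / 2 := rfl
        rw [pow_succ] at hcard
        omega
      have hhi : (C.filter fun c => c0 < c).card < 2 ^ r := by
        have h2 : (C.filter fun c => c0 < c) ⊆ (Finset.Ioi i0).image e := by
          intro c hc
          rw [Finset.mem_filter] at hc
          obtain ⟨j, rfl⟩ := hmem c hc.1
          exact Finset.mem_image_of_mem _ (Finset.mem_Ioi.2 (e.lt_iff_lt.1 hc.2))
        have h3 := (Finset.card_le_card h2).trans Finset.card_image_le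
        rw [Fin.card_Ioi] at h3
        have h4 : (i0 : ℕ) = C.card / 2 := rfl
        rw [pow_succ] at hcard
        omega
      -- halve along the median slope
      have hG0 : 2 * (2 ^ r * M) ≤ G0.card := by
        rw [pow_succ] at h0
        linarith
      have hG1 : 2 * (2 ^ r * M) ≤ G1.card := by
        rw [pow_succ] at h1
        linarith
      obtain ⟨A, hA, B, hB, cA, cB, hor⟩ :=
        exists_half G0 G1 (fun k => y k - c0 * x k) (2 ^ r * M) hG0 hG1
      have hx' : ∀ k ∈ A, ∀ l ∈ B, x k ≤ x l := fun k hk l hl => hx k (hA hk) l (hB hl)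
      rcases hor with hor | hor
      · -- the differences lie above the median slope
        obtain ⟨H0, hH0, H1, hH1, c0', c1', σ, hσ1, hσ2, hσ3, hσ4⟩ :=
          ih c0 b (hC c0 hc0C).2 (C.filter fun c => c0 < c)
            (fun c hc => ⟨(Finset.mem_filter.1 hc).2, (hC c (Finset.mem_filter.1 hc).1).2⟩)
            hhi A B cA cB hx'
        refine ⟨H0, hH0.trans hA, H1, hH1.trans hB, c0', c1', σ,
          (hC c0 hc0C).1.trans hσ1, hσ2, ?_, ?_⟩
        · intro hσC
          exact hσ3 (Finset.mem_filter.2 ⟨hσC, hσ1⟩)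
        · intro c hc
          rcases lt_or_ge c0 c with hlt | hge
          · exact hσ4 c (Finset.mem_filter.2 ⟨hc, hlt⟩)
          · refine ⟨fun _ k hk l hl => ?_, fun h => absurd (hσ1.trans h) (not_lt.2 hge)⟩
            have e1 := hor k (hH0 hk) l (hH1 hl)
            have e2 := hx' k (hH0 hk) l (hH1 hl)
            nlinarith [mul_nonneg (sub_nonneg.2 hge) (sub_nonneg.2 e2)]
      · -- the differences lie below the median slope
        obtain ⟨H0, hH0, H1, hH1, c0', c1', σ, hσ1, hσ2, hσ3, hσ4⟩ :=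
          ih a c0 (hC c0 hc0C).1 (C.filter fun c => c < c0)
            (fun c hc => ⟨(hC c (Finset.mem_filter.1 hc).1).1, (Finset.mem_filter.1 hc).2⟩)
            hlo A B cA cB hx'
        refine ⟨H0, hH0.trans hA, H1, hH1.trans hB, c0', c1', σ, hσ1,
          hσ2.trans (hC c0 hc0C).2, ?_, ?_⟩
        · intro hσC
          exact hσ3 (Finset.mem_filter.2 ⟨hσC, hσ2⟩)
        · intro c hc
          rcases lt_or_ge c c0 with hlt | hge
          · exact hσ4 c (Finset.mem_filter.2 ⟨hc, hlt⟩)
          · refine ⟨fun h => absurd (h.trans hσ2) (not_lt.2 hge), fun _ k hk l hl => ?_⟩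
            have e1 := hor k (hH0 hk) l (hH1 hl)
            have e2 := hx' k (hH0 hk) l (hH1 hl)
            nlinarith [mul_nonneg (sub_nonneg.2 hge) (sub_nonneg.2 e2)]

/-- An injective refinement of a real function on `Fin n`. -/
theorem exists_refine {n : ℕ} (e : Fin n → ℝ) :
    ∃ o : Fin n → ℝ, Function.Injective o ∧ ∀ i j, o i < o j → e i ≤ e j := by
  classical
  set L : Fin n → ℝ ×ₗ Fin n := fun i => toLex (e i, i) with hL
  have hLinj : Function.Injective L := by
    intro i j hij
    have h1 : (e i, i) = (e j, j) := toLex.injective hij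
    exact congrArg Prod.snd h1
  set o : Fin n → ℝ := fun i => ((Finset.univ.filter fun j => L j < L i).card : ℝ) with ho
  have hmono : ∀ i j, L i < L j → o i < o j := by
    intro i j hij
    rw [ho]
    simp only [Nat.cast_lt]
    refine Finset.card_lt_card ?_
    rw [Finset.ssubset_iff_of_subset]
    · refine ⟨i, ?_, ?_⟩
      · rw [Finset.mem_filter]
        exact ⟨Finset.mem_univ _, hij⟩
      · rw [Finset.mem_filter]
        exact fun h => lt_irrefl _ h.2
    · intro k hk
      rw [Finset.mem_filter] at hk ⊢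
      exact ⟨Finset.mem_univ _, hk.2.trans hij⟩
  refine ⟨o, ?_, ?_⟩
  · intro i j hij
    rcases lt_trichotomy (L i) (L j) with h | h | h
    · exact absurd hij (hmono i j h).ne
    · exact hLinj h
    · exact absurd hij (hmono j i h).ne'
  · intro i j hij
    rcases lt_trichotomy (L i) (L j) with h | h | h
    · have h2 : e i < e j ∨ e i = e j ∧ i < j := by
        rw [hL] at h
        exact Prod.Lex.toLex_lt_toLex.1 h
      rcases h2 with h2 | h2
      · exact h2.le
      · exact h2.1.le
    · rw [hLinj h]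
    · exact absurd hij (not_lt.2 (hmono j i h).le)

/-- **Planar selection.**  Among `2 ^ (r + 1) * M` points there are two disjoint families of size
`M` such that all differences order the `n` items in one way, if `n * n ≤ 2 ^ r`. -/
theorem exists_sep {I : Type} (G : Finset I) (x y : I → ℝ) {n : ℕ} (p s : Fin n → ℝ) (r M : ℕ)
    (hr : n * n ≤ 2 ^ r) (hn : 1 ≤ n) (hG : 2 ^ (r + 1) * M ≤ G.card) :
    ∃ G0 G1 : Finset I, G0 ⊆ G ∧ G1 ⊆ G ∧ Disjoint G0 G1 ∧ M ≤ G0.card ∧ M ≤ G1.card ∧
      ∃ o : Fin n → ℝ, Function.Injective o ∧ ∀ k ∈ G0, ∀ l ∈ G1, ∀ i j, o i < o j →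
        (x l - x k) * p i + (y l - y k) * s i ≤ (x l - x k) * p j + (y l - y k) * s j := by
  classical
  obtain ⟨A, hA, B, hB, hAB, cA, cB, μ, hμ0, hμ1⟩ := exists_cut G x (2 ^ r * M) (by
    rw [pow_succ] at hG
    linarith)
  set C : Finset ℝ := (Finset.univ : Finset (Fin n)).offDiag.image
    fun q => -(p q.2 - p q.1) / (s q.2 - s q.1) with hC
  have hcard : C.card < 2 ^ r := by
    have h1 : C.card ≤ n * n - n := by
      refine Finset.card_image_le.trans ?_
      rw [Finset.offDiag_card, Finset.card_univ, Fintype.card_fin]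
    have h2 : n ≤ n * n := Nat.le_mul_of_pos_left n hn
    omega
  obtain ⟨a, ha⟩ : ∃ a : ℝ, ∀ c ∈ C, a < c := by
    obtain ⟨a, ha⟩ := C.bddBelow
    exact ⟨a - 1, fun c hc => by linarith [ha hc]⟩
  obtain ⟨b, hb⟩ : ∃ b : ℝ, ∀ c ∈ C, c < b := by
    obtain ⟨b, hb⟩ := C.bddAbove
    exact ⟨b + 1, fun c hc => by linarith [hb hc]⟩
  obtain ⟨H0, hH0, H1, hH1, c0, c1, σ, -, -, hσ3, hσ4⟩ :=
    exists_slope x y M r (min a (b - 1)) b (by
        have := min_le_right a (b - 1)
        linarith) C
      (fun c hc => ⟨(min_le_left _ _).trans_lt (ha c hc), hb c hc⟩) hcard A B cA cB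
      (fun k hk l hl => (hμ0 k hk).trans (hμ1 l hl))
  obtain ⟨o, ho, ho'⟩ := exists_refine fun i => p i + σ * s i
  refine ⟨H0, H1, hH0.trans hA, hH1.trans hB, Finset.disjoint_of_subset_left hH0
    (Finset.disjoint_of_subset_right hH1 hAB), c0, c1, o, ho, ?_⟩
  intro k hk l hl i j hij
  have hle : p i + σ * s i ≤ p j + σ * s j := ho' i j hij
  have hij' : i ≠ j := by
    rintro rfl
    exact lt_irrefl _ hij
  have hx : x k ≤ x l := (hμ0 k (hH0 hk)).trans (hμ1 l (hH1 hl))
  have hcC : -(p j - p i) / (s j - s i) ∈ C := by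
    rw [hC]
    refine Finset.mem_image.2 ⟨(i, j), ?_, rfl⟩
    rw [Finset.mem_offDiag]
    exact ⟨Finset.mem_univ _, Finset.mem_univ _, hij'⟩
  rcases lt_trichotomy (s i) (s j) with hs | hs | hs
  · -- `s i < s j`
    have hd : 0 < s j - s i := sub_pos.2 hs
    set c : ℝ := -(p j - p i) / (s j - s i) with hc
    have hcd : c * (s j - s i) = -(p j - p i) := by
      rw [hc, div_mul_cancel₀ _ hd.ne']
    have hcσ : c < σ := by
      refine lt_of_le_of_ne ?_ ?_
      · rw [hc, div_le_iff₀ hd]
        nlinarith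
      · intro h
        rw [h] at hcC
        exact hσ3 hcC
    have h1 := (hσ4 c hcC).1 hcσ k hk l hl
    nlinarith [mul_nonneg hd.le (sub_nonneg.2 h1)]
  · -- `s i = s j`
    have hp : p i ≤ p j := by
      rw [hs] at hle
      linarith
    rw [hs]
    nlinarith [mul_nonneg (sub_nonneg.2 hx) (sub_nonneg.2 hp)]
  · -- `s j < s i`
    have hd : s j - s i < 0 := sub_neg.2 hs
    set c : ℝ := -(p j - p i) / (s j - s i) with hc
    have hcd : c * (s j - s i) = -(p j - p i) := by
      rw [hc, div_mul_cancel₀ _ hd.ne]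
    have hcσ : σ < c := by
      refine lt_of_le_of_ne ?_ ?_
      · rw [hc, le_div_iff_of_neg hd]
        nlinarith
      · intro h
        rw [← h] at hcC
        exact hσ3 hcC
    have h1 := (hσ4 c hcC).2 hcσ k hk l hl
    nlinarith [mul_nonneg (neg_nonneg.2 hd.le) (sub_nonneg.2 h1)]

end Pool.Agent.H9.RQ
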