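import Pool.Agent.H9.RQ.Route

/-!
# RQ: complete separated trees are shallow (MP_bd0985_co)

Active items and the contradiction in a complete tree of depth `27 q ^ 3 + 1` (helper9).
-/

set_option autoImplicit false

namespace Pool.Agent.H9.RQ

section Desc

variable {ι : Type}

lemma mem_of_desc {w : Tr ι} {l : ι} (hl : Tr.Mem l w) :
    ∀ {d : ℕ} {t : Tr ι}, Tr.Desc w d t → Tr.Mem l t
  | 0, t, h => by
      have h' : w = t := h
      subst h'; exact hl
  | _ + 1, Tr.leaf _, h => h.elim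
  | d + 1, Tr.node a b, h => by
      rcases h with h | h
      · exact Or.inl (mem_of_desc hl h)
      · exact Or.inr (mem_of_desc hl h)

lemma full_of_desc {w : Tr ι} {e : ℕ} :
    ∀ {d : ℕ} {t : Tr ι}, Tr.Desc w d t → Tr.Full (d + e) t → Tr.Full e w
  | 0, t, h, hF => by
      have h' : w = t := h
      subst h'; rwa [Nat.zero_add] at hF
  | _ + 1, Tr.leaf _, h, _ => h.elim
  | d + 1, Tr.node a b, h, hF => by
      have e1 : d + 1 + e = (d + e) + 1 := by omega
      rw [e1] at hF
      rcases h with h | h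
      · exact full_of_desc h hF.1
      · exact full_of_desc h hF.2

lemma full_mono {e : ℕ} : ∀ {d : ℕ} {t : Tr ι}, Tr.Full (d + e) t → Tr.Full d t
  | 0, _, _ => trivial
  | d + 1, Tr.leaf _, hF => by
      have e1 : d + 1 + e = (d + e) + 1 := by omega
      rw [e1] at hF
      exact hF.elim
  | d + 1, Tr.node a b, hF => by
      have e1 : d + 1 + e = (d + e) + 1 := by omega
      rw [e1] at hF
      exact ⟨full_mono hF.1, full_mono hF.2⟩

lemma avg_le {g : Tr ι → ℝ} {c : ℝ} :
    ∀ {d : ℕ} {t : Tr ι}, Tr.Full d t → (∀ w, Tr.Desc w d t → g w ≤ c) → Tr.avg g d t ≤ c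
  | 0, t, _, h => h t rfl
  | _ + 1, Tr.leaf _, hF, _ => hF.elim
  | d + 1, Tr.node a b, hF, h => by
      have h1 := avg_le hF.1 fun w hw => h w (Or.inl hw)
      have h2 := avg_le hF.2 fun w hw => h w (Or.inr hw)
      rw [avg_succ]
      linarith

lemma avg_sum {E : Type} (A : Finset E) (g : E → Tr ι → ℝ) :
    ∀ (d : ℕ) (t : Tr ι), ∑ i ∈ A, Tr.avg (g i) d t = Tr.avg (fun x => ∑ i ∈ A, g i x) d t
  | 0, _ => rfl
  | d + 1, Tr.leaf l => by
      rw [avg_leaf]
      exact Finset.sum_congr rfl fun i _ => avg_leaf _ _ _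
  | d + 1, Tr.node a b => by
      rw [avg_succ, ← avg_sum A g d a, ← avg_sum A g d b, ← Finset.sum_add_distrib,
        Finset.sum_div]
      exact Finset.sum_congr rfl fun i _ => avg_succ _ _ _ _

/-- A property of trees which passes to the two children passes to all nodes below. -/
lemma desc_of {P : Tr ι → Prop} (hP : ∀ a b, P (Tr.node a b) → P a ∧ P b) {w : Tr ι} :
    ∀ {d : ℕ} {t : Tr ι}, Tr.Desc w d t → P t → P w
  | 0, t, h, hp => by
      have h' : w = t := h
      subst h'; exact hp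
  | _ + 1, Tr.leaf _, h, _ => h.elim
  | d + 1, Tr.node a b, h, hp => by
      rcases h with h | h
      · exact desc_of hP h (hP _ _ hp).1
      · exact desc_of hP h (hP _ _ hp).2

end Desc

section Active

variable {ι : Type} {n : ℕ}

open Classical in
/-- The items used by all leaves. -/
noncomputable def co (S : ι → Finset (Fin n)) (t : Tr ι) : Finset (Fin n) :=
  Finset.univ.filter fun i => ∀ l, Tr.Mem l t → i ∈ S l

open Classical in
/-- The active items: used by some leaves but not by all. -/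
noncomputable def act (S : ι → Finset (Fin n)) (t : Tr ι) : Finset (Fin n) :=
  Finset.univ.filter fun i => (∃ l, Tr.Mem l t ∧ i ∈ S l) ∧ ∃ l, Tr.Mem l t ∧ i ∉ S l

lemma mem_co {S : ι → Finset (Fin n)} {t : Tr ι} {i : Fin n} :
    i ∈ co S t ↔ ∀ l, Tr.Mem l t → i ∈ S l := by
  simp [co]

lemma mem_act {S : ι → Finset (Fin n)} {t : Tr ι} {i : Fin n} :
    i ∈ act S t ↔ (∃ l, Tr.Mem l t ∧ i ∈ S l) ∧ ∃ l, Tr.Mem l t ∧ i ∉ S l := by
  simp [act]

lemma act_sub {S : ι → Finset (Fin n)} {t w : Tr ι} {d : ℕ} (h : Tr.Desc w d t) :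
    act S w ⊆ act S t := by
  intro i hi
  rw [mem_act] at hi ⊢
  obtain ⟨⟨l, hl, hl'⟩, k, hk, hk'⟩ := hi
  exact ⟨⟨l, mem_of_desc hl h, hl'⟩, k, mem_of_desc hk h, hk'⟩

/-- The sets of leaves of different children of a node are different. -/
def Dis (S : ι → Finset (Fin n)) : Tr ι → Prop
  | Tr.leaf _ => True
  | Tr.node a b => Dis S a ∧ Dis S b ∧ ∀ k, Tr.Mem k a → ∀ l, Tr.Mem l b → S k ≠ S l

lemma two_le_act {S : ι → Finset (Fin n)} {m : ℕ} (hS : ∀ l, (S l).card = m) {t : Tr ι}
    (hF : Tr.Full 1 t) (hD : Dis S t) : 2 ≤ (act S t).card := by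
  cases t with
  | leaf l => exact hF.elim
  | node a b =>
    obtain ⟨k, hk⟩ := exists_mem a
    obtain ⟨l, hl⟩ := exists_mem b
    have hne := hD.2.2 k hk l hl
    have h1 : ∃ i, i ∈ S k ∧ i ∉ S l := by
      by_contra hcon
      push Not at hcon
      exact hne (Finset.eq_of_subset_of_card_le hcon (by rw [hS, hS]))
    have h2 : ∃ i, i ∈ S l ∧ i ∉ S k := by
      by_contra hcon
      push Not at hcon
      exact hne (Finset.eq_of_subset_of_card_le hcon (by rw [hS, hS])).symm
    obtain ⟨i, hi1, hi2⟩ := h1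
    obtain ⟨j, hj1, hj2⟩ := h2
    have hij : i ≠ j := fun h => hi2 (h ▸ hj1)
    have hsub : ({i, j} : Finset (Fin n)) ⊆ act S (Tr.node a b) := by
      intro x hx
      rw [mem_act]
      rw [Finset.mem_insert, Finset.mem_singleton] at hx
      rcases hx with rfl | rfl
      · exact ⟨⟨k, Or.inl hk, hi1⟩, l, Or.inr hl, hi2⟩
      · exact ⟨⟨l, Or.inr hl, hj1⟩, k, Or.inl hk, hj2⟩
    calc 2 = ({i, j} : Finset (Fin n)).card := (Finset.card_pair hij).symm
      _ ≤ _ := Finset.card_le_card hsub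

end Active

section Contra

variable {ι : Type} {n : ℕ}

lemma one_add_pow_le {q : ℕ} (hq : 1 ≤ q) : (1 + 1 / (q : ℝ)) ^ q ≤ 3 := by
  have hq0 : (0 : ℝ) < q := by exact_mod_cast hq
  have h1 : 1 + 1 / (q : ℝ) ≤ Real.exp (1 / (q : ℝ)) := by
    have := Real.add_one_le_exp (1 / (q : ℝ))
    linarith
  have h2 : (1 + 1 / (q : ℝ)) ^ q ≤ Real.exp (1 / (q : ℝ)) ^ q :=
    pow_le_pow_left₀ (by positivity) h1 q
  rw [← Real.exp_nat_mul, mul_one_div_cancel hq0.ne'] at h2
  have h3 := Real.exp_one_lt_d9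
  linarith

/-- The routing lemma for a stable node. -/
lemma route_act {S : ι → Finset (Fin n)} {q : ℕ} (hq : 1 ≤ q) (hn : n ≤ 2 ^ q)
    {Ach : Tr ι → (Fin n → ι) → Prop} {bad : Fin n → ι → Prop} {t : Tr ι}
    (hG : Tr.Good Ach t) (hF : Tr.Full (q * q) t)
    (hbad : ∀ w i, i ∈ act S w → ∃ l, Tr.Mem l w ∧ ¬ bad i l)
    (hst : ∀ w, Tr.Desc w (q * q) t → 26 * (act S t).card ≤ 27 * (act S w).card) :
    ∃ f, Ach t f ∧ 3 * cost bad f (act S t) ≤ (act S t).card := by
  classical
  have hA : (act S t).card ≤ 2 ^ q := by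
    refine le_trans ?_ hn
    simpa using Finset.card_le_univ (act S t)
  obtain ⟨f, hf, hc⟩ := route (bad := bad) hq q t hG hF (act S t) hA
  refine ⟨f, hf, ?_⟩
  set N : ℝ := ((act S t).card : ℝ) with hN
  have hN0 : 0 ≤ N := Nat.cast_nonneg _
  have h1 : ∑ i ∈ act S t, Tr.avg (bt bad i) (q * q) t ≤ N / 27 := by
    rw [avg_sum]
    refine avg_le hF fun w hw => ?_
    have e1 : ∑ i ∈ act S t, bt bad i w ≤ ∑ i ∈ act S t \ act S w, (1 : ℝ) := by
      rw [← Finset.sum_sdiff (act_sub (S := S) hw)]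
      have e2 : ∑ i ∈ act S w, bt bad i w = 0 := by
        refine Finset.sum_eq_zero fun i hi => ?_
        obtain ⟨l, hl, hl'⟩ := hbad w i hi
        unfold bt
        exact if_neg fun h => hl' (h l hl)
      rw [e2, add_zero]
      refine Finset.sum_le_sum fun i _ => ?_
      unfold bt
      split_ifs <;> norm_num
    refine e1.trans ?_
    rw [Finset.sum_const, nsmul_eq_mul, mul_one, Finset.card_sdiff_of_subset (act_sub hw),
      Nat.cast_sub (Finset.card_le_card (act_sub hw))]
    have e3 := hst w hw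
    have e4 : (26 : ℝ) * N ≤ 27 * ((act S w).card : ℝ) := by rw [hN]; exact_mod_cast e3
    linarith
  have h2 : ∀ i ∈ act S t, √((1 + 1 / (q : ℝ)) ^ q * Tr.avg (bt bad i) (q * q) t) ≤
      1 / 6 + (3 / 2) * (3 * Tr.avg (bt bad i) (q * q) t) := by
    intro i _
    have e0 : 0 ≤ Tr.avg (bt bad i) (q * q) t := avg_nonneg (fun _ => bt_nonneg _ _ _) _ _
    have e1 : (1 + 1 / (q : ℝ)) ^ q * Tr.avg (bt bad i) (q * q) t ≤
        3 * Tr.avg (bt bad i) (q * q) t := mul_le_mul_of_nonneg_right (one_add_pow_le hq) e0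
    refine (Real.sqrt_le_sqrt e1).trans ?_
    have e2 := Real.sq_sqrt (by positivity : 0 ≤ 3 * Tr.avg (bt bad i) (q * q) t)
    nlinarith [sq_nonneg (√(3 * Tr.avg (bt bad i) (q * q) t) - 1 / 3),
      Real.sqrt_nonneg (3 * Tr.avg (bt bad i) (q * q) t)]
  have h3 := hc.trans (Finset.sum_le_sum h2)
  rw [Finset.sum_add_distrib, Finset.sum_const, nsmul_eq_mul, ← Finset.mul_sum,
    ← Finset.mul_sum] at h3
  linarith

/-- A stable node is impossible. -/
lemma stable_false {S : ι → Finset (Fin n)} {m q : ℕ} (hq : 1 ≤ q) (hn : n ≤ 2 ^ q)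
    {Amin Amax : Tr ι → (Fin n → ι) → Prop}
    (hmem1 : ∀ t f, Amin t f → ∀ i, Tr.Mem (f i) t)
    (hmem2 : ∀ t f, Amax t f → ∀ i, Tr.Mem (f i) t)
    (hmin : ∀ t f, Amin t f → (Finset.univ.filter fun i => i ∈ S (f i)).card ≤ m)
    (hmax : ∀ t f, Amax t f → m ≤ (Finset.univ.filter fun i => i ∈ S (f i)).card)
    {t : Tr ι} (hG1 : Tr.Good Amin t) (hG2 : Tr.Good Amax t) (hF : Tr.Full (q * q) t)
    (hpos : 1 ≤ (act S t).card)
    (hst : ∀ w, Tr.Desc w (q * q) t → 26 * (act S t).card ≤ 27 * (act S w).card) : False := by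
  classical
  obtain ⟨f, hf, hcf⟩ := route_act (S := S) (bad := fun i l => i ∉ S l) hq hn hG1 hF
    (fun w i hi => by
      obtain ⟨⟨l, hl, hl'⟩, -⟩ := mem_act.1 hi
      exact ⟨l, hl, fun h => h hl'⟩) hst
  obtain ⟨g, hg, hcg⟩ := route_act (S := S) (bad := fun i l => i ∈ S l) hq hn hG2 hF
    (fun w i hi => by
      obtain ⟨-, l, hl, hl'⟩ := mem_act.1 hi
      exact ⟨l, hl, hl'⟩) hst
  have hdis : Disjoint (co S t) (act S t) := by
    rw [Finset.disjoint_left]
    intro i h1 h2
    obtain ⟨-, l, hl, hl'⟩ := mem_act.1 h2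
    exact hl' (mem_co.1 h1 l hl)
  -- minimum
  have k1 : (co S t).card + ((act S t).filter fun i => i ∈ S (f i)).card ≤ m := by
    refine le_trans ?_ (hmin t f hf)
    rw [← Finset.card_union_of_disjoint
      (Finset.disjoint_of_subset_right (Finset.filter_subset _ _) hdis)]
    refine Finset.card_le_card fun i hi => ?_
    rw [Finset.mem_filter]
    refine ⟨Finset.mem_univ _, ?_⟩
    rcases Finset.mem_union.1 hi with h | h
    · exact mem_co.1 h _ (hmem1 t f hf i)
    · exact (Finset.mem_filter.1 h).2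
  have k2 : ((act S t).filter fun i => i ∈ S (f i)).card +
      ((act S t).filter fun i => ¬ i ∈ S (f i)).card = (act S t).card :=
    Finset.card_filter_add_card_filter_not _
  -- maximum
  have k3 : m ≤ (co S t).card + ((act S t).filter fun i => i ∈ S (g i)).card := by
    refine (hmax t g hg).trans ?_
    refine le_trans (Finset.card_le_card fun i hi => ?_) (Finset.card_union_le _ _)
    rw [Finset.mem_filter] at hi
    rw [Finset.mem_union]
    by_cases hc : i ∈ co S t
    · exact Or.inl hc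
    · refine Or.inr (Finset.mem_filter.2 ⟨?_, hi.2⟩)
      rw [mem_act]
      refine ⟨⟨g i, hmem2 t g hg i, hi.2⟩, ?_⟩
      rw [mem_co] at hc
      push Not at hc
      obtain ⟨l, hl, hl'⟩ := hc
      exact ⟨l, hl, hl'⟩
  have c1 : cost (fun i l => i ∉ S l) f (act S t) =
      (((act S t).filter fun i => ¬ i ∈ S (f i)).card : ℝ) := by
    unfold cost
    congr
  have c2 : cost (fun i l => i ∈ S l) g (act S t) =
      (((act S t).filter fun i => i ∈ S (g i)).card : ℝ) := by
    unfold cost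
    congr
  rw [c1] at hcf
  rw [c2] at hcg
  have d1 : 3 * ((act S t).filter fun i => ¬ i ∈ S (f i)).card ≤ (act S t).card := by
    exact_mod_cast hcf
  have d2 : 3 * ((act S t).filter fun i => i ∈ S (g i)).card ≤ (act S t).card := by
    exact_mod_cast hcg
  omega

/-- **Complete trees are shallow** (abstract form). -/
theorem no_full {S : ι → Finset (Fin n)} {m q : ℕ} (hn : n ≤ 2 ^ q)
    (hS : ∀ l, (S l).card = m)
    {Amin Amax : Tr ι → (Fin n → ι) → Prop}
    (hmem1 : ∀ t f, Amin t f → ∀ i, Tr.Mem (f i) t)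
    (hmem2 : ∀ t f, Amax t f → ∀ i, Tr.Mem (f i) t)
    (hmin : ∀ t f, Amin t f → (Finset.univ.filter fun i => i ∈ S (f i)).card ≤ m)
    (hmax : ∀ t f, Amax t f → m ≤ (Finset.univ.filter fun i => i ∈ S (f i)).card) :
    ∀ (s : ℕ) (t : Tr ι), Tr.Good Amin t → Tr.Good Amax t → Dis S t →
      Tr.Full (s * (q * q) + 1) t → (act S t).card * 26 ^ s < 2 * 27 ^ s → False
  | 0, t, _, _, hD, hF, hlt => by
      have h2 := two_le_act hS (by simpa using hF) hD
      omega
  | s + 1, t, hG1, hG2, hD, hF, hlt => by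
      have e1 : (s + 1) * (q * q) + 1 = q * q + (s * (q * q) + 1) := by ring
      rw [e1] at hF
      by_cases hst : ∀ w, Tr.Desc w (q * q) t → 26 * (act S t).card ≤ 27 * (act S w).card
      · have hF1 : Tr.Full 1 t := by
          have e2 : q * q + (s * (q * q) + 1) = 1 + (q * q + s * (q * q)) := by ring
          rw [e2] at hF
          exact full_mono hF
        have h2 := two_le_act hS hF1 hD
        have hq : 1 ≤ q := by
          by_contra hcon
          have : q = 0 := by omega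
          subst this
          have h3 : (act S t).card ≤ n := by simpa using Finset.card_le_univ (act S t)
          simp at hn
          omega
        exact stable_false hq hn hmem1 hmem2 hmin hmax hG1 hG2 (full_mono hF) (by omega) hst
      · push Not at hst
        obtain ⟨w, hw, hlt2⟩ := hst
        refine no_full hn hS hmem1 hmem2 hmin hmax s w
          (desc_of (P := Tr.Good Amin) (fun a b h => ⟨h.1, h.2.1⟩) hw hG1)
          (desc_of (P := Tr.Good Amax) (fun a b h => ⟨h.1, h.2.1⟩) hw hG2)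
          (desc_of (P := Dis S) (fun a b h => ⟨h.1, h.2.1⟩) hw hD)
          (full_of_desc hw hF) ?_
        have h26 : 0 < 26 ^ s := by positivity
        have e3 : (act S w).card * 26 ^ s * 27 < 2 * 27 ^ s * 27 := by
          calc (act S w).card * 26 ^ s * 27 = 27 * (act S w).card * 26 ^ s := by ring
            _ < 26 * (act S t).card * 26 ^ s := by
                exact Nat.mul_lt_mul_of_pos_right hlt2 h26
            _ = (act S t).card * 26 ^ (s + 1) := by ring
            _ < 2 * 27 ^ (s + 1) := hlt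
            _ = 2 * 27 ^ s * 27 := by ring
        exact Nat.lt_of_mul_lt_mul_right e3

/-- **Complete trees are shallow.** -/
theorem no_full' {S : ι → Finset (Fin n)} {m q : ℕ} (hn : n ≤ 2 ^ q)
    (hS : ∀ l, (S l).card = m)
    {Amin Amax : Tr ι → (Fin n → ι) → Prop}
    (hmem1 : ∀ t f, Amin t f → ∀ i, Tr.Mem (f i) t)
    (hmem2 : ∀ t f, Amax t f → ∀ i, Tr.Mem (f i) t)
    (hmin : ∀ t f, Amin t f → (Finset.univ.filter fun i => i ∈ S (f i)).card ≤ m)
    (hmax : ∀ t f, Amax t f → m ≤ (Finset.univ.filter fun i => i ∈ S (f i)).card)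
    {t : Tr ι} (hG1 : Tr.Good Amin t) (hG2 : Tr.Good Amax t) (hD : Dis S t)
    (hF : Tr.Full (27 * q ^ 3 + 1) t) : False := by
  refine no_full hn hS hmem1 hmem2 hmin hmax (27 * q) t hG1 hG2 hD ?_ ?_
  · have e : 27 * q * (q * q) + 1 = 27 * q ^ 3 + 1 := by ring
    rw [e]; exact hF
  · have h1 : (act S t).card ≤ 2 ^ q := by
      refine le_trans ?_ hn
      simpa using Finset.card_le_univ (act S t)
    have h2 : 2 * 26 ^ 27 ≤ 27 ^ 27 := by norm_num
    have h3 : (2 * 26 ^ 27) ^ q ≤ (27 ^ 27) ^ q := Nat.pow_le_pow_left h2 q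
    rw [mul_pow, ← pow_mul, ← pow_mul] at h3
    have h4 : (act S t).card * 26 ^ (27 * q) ≤ 2 ^ q * 26 ^ (27 * q) :=
      Nat.mul_le_mul_right _ h1
    have h5 : 0 < 27 ^ (27 * q) := by positivity
    omega

end Contra

end Pool.Agent.H9.RQ
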