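import Mathlib

/-!
# RQ: a quasi-polynomial bound for unique optimal translated partial matchings (MP_bd0985_co)

Definitions (helper9).  A matching `π : Fin m ↪ Fin n` of agents to items has the value
`∑ a, (w a (π a) + v (π a))` for the item values `v`.
-/

set_option autoImplicit false

namespace Pool.Agent.H9.RQ

/-- Value of the matching `π` for the item values `v`. -/
noncomputable def val {m n : ℕ} (w : Fin m → Fin n → ℝ) (v : Fin n → ℝ) (π : Fin m ↪ Fin n) : ℝ :=
  ∑ a, (w a (π a) + v (π a))

/-- `π` is the unique optimal matching for the item values `v`. -/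
def UO {m n : ℕ} (w : Fin m → Fin n → ℝ) (v : Fin n → ℝ) (π : Fin m ↪ Fin n) : Prop :=
  ∀ σ : Fin m ↪ Fin n, σ ≠ π → val w v σ < val w v π

end Pool.Agent.H9.RQ
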