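import Pool.Agent.H9.RQ.Tr

/-!
# RQ: the routing lemma (MP_bd0985_co)

In a complete binary tree of depth `k q` every set of at most `2 ^ q` items can be distributed
over the tree such that the number of bad items is small on average (helper9).
-/

set_option autoImplicit false

namespace Pool.Agent.H9.RQ

open Classical in
/-- `1` if the item `i` is bad for all leaves below `w`, otherwise `0`. -/
noncomputable def bt {ι E : Type} (bad : E → ι → Prop) (i : E) (w : Tr ι) : ℝ :=
  if ∀ l, Tr.Mem l w → bad i l then 1 else 0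

open Classical in
/-- Number of bad items of `A` under the assignment `f`. -/
noncomputable def cost {ι E : Type} (bad : E → ι → Prop) (f : E → ι) (A : Finset E) : ℝ :=
  ((A.filter fun i => bad i (f i)).card : ℝ)

section Avg

variable {ι : Type}

lemma bt_nonneg {E : Type} (bad : E → ι → Prop) (i : E) (w : Tr ι) : 0 ≤ bt bad i w := by
  unfold bt
  split_ifs <;> norm_num

lemma avg_nonneg {g : Tr ι → ℝ} (hg : ∀ t, 0 ≤ g t) : ∀ (d : ℕ) (t : Tr ι), 0 ≤ Tr.avg g d t
  | 0, t => hg t
  | _ + 1, Tr.leaf _ => hg _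
  | d + 1, Tr.node a b => by
      have h1 := avg_nonneg hg d a
      have h2 := avg_nonneg hg d b
      change 0 ≤ (Tr.avg g d a + Tr.avg g d b) / 2
      linarith

lemma avg_leaf (g : Tr ι → ℝ) (d : ℕ) (l : ι) : Tr.avg g d (Tr.leaf l) = g (Tr.leaf l) := by
  cases d <;> rfl

lemma avg_succ (g : Tr ι → ℝ) (d : ℕ) (a b : Tr ι) :
    Tr.avg g (d + 1) (Tr.node a b) = (Tr.avg g d a + Tr.avg g d b) / 2 := rfl

lemma avg_avg (g : Tr ι → ℝ) (d : ℕ) :
    ∀ (r : ℕ) (t : Tr ι), Tr.avg (Tr.avg g d) r t = Tr.avg g (r + d) t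
  | 0, t => by rw [Nat.zero_add]; rfl
  | r + 1, Tr.leaf l => by rw [avg_leaf, avg_leaf, avg_leaf]
  | r + 1, Tr.node a b => by
      have e : r + 1 + d = (r + d) + 1 := by omega
      rw [e, avg_succ, avg_succ, avg_avg g d r a, avg_avg g d r b]

lemma avg_mul (c : ℝ) (g : Tr ι → ℝ) :
    ∀ (r : ℕ) (t : Tr ι), Tr.avg (fun x => c * g x) r t = c * Tr.avg g r t
  | 0, _ => rfl
  | r + 1, Tr.leaf l => by rw [avg_leaf, avg_leaf]
  | r + 1, Tr.node a b => by
      rw [avg_succ, avg_succ, avg_mul c g r a, avg_mul c g r b]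
      ring

end Avg

section Basic

variable {ι E : Type} {Ach : Tr ι → (E → ι) → Prop} {bad : E → ι → Prop}

lemma ach_const {l : ι} : ∀ {t : Tr ι}, Tr.Good Ach t → Tr.Mem l t → Ach t fun _ => l
  | Tr.leaf k, hG, hl => by
      change l = k at hl
      subst hl
      exact hG
  | Tr.node a b, hG, hl => by
      obtain ⟨ha, hb, h1, h2, -⟩ := hG
      rcases hl with hl | hl
      · exact h1 _ (ach_const ha hl)
      · exact h2 _ (ach_const hb hl)

lemma exists_mem : ∀ t : Tr ι, ∃ l, Tr.Mem l t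
  | Tr.leaf l => ⟨l, rfl⟩
  | Tr.node a _ => by
      obtain ⟨l, hl⟩ := exists_mem a
      exact ⟨l, Or.inl hl⟩

lemma exists_ach {t : Tr ι} (hG : Tr.Good Ach t) : ∃ f, Ach t f := by
  obtain ⟨l, hl⟩ := exists_mem t
  exact ⟨_, ach_const hG hl⟩

lemma cost_nonneg (f : E → ι) (A : Finset E) : 0 ≤ cost bad f A := Nat.cast_nonneg _

open Classical in
/-- The cost of a merged assignment. -/
lemma cost_merge {A A1 A0 : Finset E} (hA : ∀ i, i ∈ A ↔ (i ∈ A1 ∨ i ∈ A0)) {f f0 f1 : E → ι}
    (h1 : ∀ i ∈ A1, f i = f1 i) (h0 : ∀ i ∈ A0, f i = f0 i) :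
    cost bad f A ≤ cost bad f1 A1 + cost bad f0 A0 := by
  have e : (A.filter fun i => bad i (f i)) ⊆
      (A1.filter fun i => bad i (f1 i)) ∪ (A0.filter fun i => bad i (f0 i)) := by
    intro i hi
    rw [Finset.mem_filter] at hi
    rw [Finset.mem_union, Finset.mem_filter, Finset.mem_filter]
    rcases (hA i).1 hi.1 with h | h
    · exact Or.inl ⟨h, by rw [← h1 i h]; exact hi.2⟩
    · exact Or.inr ⟨h, by rw [← h0 i h]; exact hi.2⟩
  have e2 := (Finset.card_le_card e).trans (Finset.card_union_le _ _)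
  unfold cost
  exact_mod_cast e2

end Basic

section Ineq

/-- The second moment parameter. -/
noncomputable def ee (r : ℕ) (α : ℝ) : ℝ := α ^ 2 + α * r + ((r : ℝ) ^ 2 + r) / 4

lemma ee_nonneg (r : ℕ) {α : ℝ} (hα : 0 ≤ α) : 0 ≤ ee r α := by
  unfold ee
  positivity

lemma ee_succ (r : ℕ) (α : ℝ) : (ee r α + ee r (α + 1)) / 2 = ee (r + 1) α := by
  unfold ee
  push_cast
  ring

lemma cs_two {p q x y : ℝ} (hp : 0 ≤ p) (hq : 0 ≤ q) (hx : 0 ≤ x) (hy : 0 ≤ y) :
    (√p * √x + √q * √y) / 2 ≤ √((p + q) / 2) * √((x + y) / 2) := by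
  rw [← Real.sqrt_mul (by positivity : (0 : ℝ) ≤ (p + q) / 2)]
  apply Real.le_sqrt_of_sq_le
  have h1 := Real.sq_sqrt hp
  have h2 := Real.sq_sqrt hq
  have h3 := Real.sq_sqrt hx
  have h4 := Real.sq_sqrt hy
  have e : (p + q) / 2 * ((x + y) / 2) =
      (√p ^ 2 + √q ^ 2) * (√x ^ 2 + √y ^ 2) / 4 := by
    rw [h1, h2, h3, h4]; ring
  rw [e]
  nlinarith [sq_nonneg (√p * √y - √q * √x)]

end Ineq

section Block

variable {ι E : Type} {Ach : Tr ι → (E → ι) → Prop} {bad : E → ι → Prop}

/-- Moving a small set down without splitting. -/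
lemma triv {d N : ℕ} {h : E → Tr ι → ℝ}
    (H : ∀ x, Tr.Good Ach x → Tr.Full d x → ∀ A : Finset E, A.card ≤ N →
      ∃ f, Ach x f ∧ cost bad f A ≤ ∑ i ∈ A, h i x) :
    ∀ (r : ℕ) (t : Tr ι), Tr.Good Ach t → Tr.Full (r + d) t → ∀ A : Finset E, A.card ≤ N →
      ∃ f, Ach t f ∧ cost bad f A ≤ ∑ i ∈ A, Tr.avg (h i) r t
  | 0, t, hG, hF, A, hA => by
      rw [Nat.zero_add] at hF
      exact H t hG hF A hA
  | r + 1, Tr.leaf l, _, hF, _, _ => by
      have e : r + 1 + d = (r + d) + 1 := by omega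
      rw [e] at hF
      exact hF.elim
  | r + 1, Tr.node a b, hG, hF, A, hA => by
      have e : r + 1 + d = (r + d) + 1 := by omega
      rw [e] at hF
      obtain ⟨ha, hb, h1, h2, -⟩ := hG
      obtain ⟨fa, hfa, hca⟩ := triv H r a ha hF.1 A hA
      obtain ⟨fb, hfb, hcb⟩ := triv H r b hb hF.2 A hA
      have es : ∑ i ∈ A, Tr.avg (h i) (r + 1) (Tr.node a b) =
          (∑ i ∈ A, Tr.avg (h i) r a + ∑ i ∈ A, Tr.avg (h i) r b) / 2 := by
        rw [← Finset.sum_add_distrib, Finset.sum_div]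
        exact Finset.sum_congr rfl fun i _ => rfl
      rcases le_total (∑ i ∈ A, Tr.avg (h i) r a) (∑ i ∈ A, Tr.avg (h i) r b) with hle | hle
      · exact ⟨fa, h1 _ hfa, by rw [es]; linarith⟩
      · exact ⟨fb, h2 _ hfb, by rw [es]; linarith⟩

/-- One block of levels with exactly one split. -/
lemma block {d N : ℕ} {h : E → Tr ι → ℝ} (h0 : ∀ i x, 0 ≤ h i x)
    (H : ∀ x, Tr.Good Ach x → Tr.Full d x → ∀ A : Finset E, A.card ≤ N →
      ∃ f, Ach x f ∧ cost bad f A ≤ ∑ i ∈ A, h i x) :
    ∀ (r : ℕ) (t : Tr ι), Tr.Good Ach t → Tr.Full (r + d) t → ∀ A : Finset E, A.card ≤ 2 * N →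
      ∃ g : E → ℝ, (∃ f, Ach t f ∧ (r : ℝ) * cost bad f A ≤ 2 * ∑ i ∈ A, g i) ∧
        ∀ i ∈ A, ∀ α : ℝ, 0 ≤ α → α * Tr.avg (h i) r t + g i ≤
          √(ee r α) * √(Tr.avg (fun x => h i x ^ 2) r t)
  | 0, t, hG, hF, A, hA => by
      refine ⟨fun _ => 0, ?_, ?_⟩
      · obtain ⟨f, hf⟩ := exists_ach hG
        exact ⟨f, hf, by simp⟩
      · intro i _ α hα
        change α * h i t + 0 ≤ √(ee 0 α) * √(h i t ^ 2)
        have e1 : ee 0 α = α ^ 2 := by unfold ee; push_cast; ring
        rw [e1, Real.sqrt_sq hα, Real.sqrt_sq (h0 i t)]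
        linarith
  | r + 1, Tr.leaf l, _, hF, _, _ => by
      have e : r + 1 + d = (r + d) + 1 := by omega
      rw [e] at hF
      exact hF.elim
  | r + 1, Tr.node a b, hG, hF, A, hA => by
      classical
      have e : r + 1 + d = (r + d) + 1 := by omega
      rw [e] at hF
      obtain ⟨ha, hb, h1, h2, h3⟩ := hG
      obtain ⟨A1, A0, hA10, hdis, hc1, hc0, hmer⟩ := h3 A
      obtain ⟨ga, ⟨fa, hfa, hca⟩, hga⟩ := block h0 H r a ha hF.1 A hA
      obtain ⟨gb, ⟨fb, hfb, hcb⟩, hgb⟩ := block h0 H r b hb hF.2 A hA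
      obtain ⟨f0, hf0, hcf0⟩ := triv H r a ha hF.1 A0 (by omega)
      obtain ⟨f1, hf1, hcf1⟩ := triv H r b hb hF.2 A1 (by omega)
      obtain ⟨f, hf, hfA1, hfA0⟩ := hmer f0 f1 hf0 hf1
      have hcf := cost_merge (bad := bad) hA10 hfA1 hfA0
      set X1 : ℝ := ∑ i ∈ A1, Tr.avg (h i) r b with hX1
      set X0 : ℝ := ∑ i ∈ A0, Tr.avg (h i) r a with hX0
      let g : E → ℝ := fun i => (if i ∈ A1 then Tr.avg (h i) r b else Tr.avg (h i) r a) / 2 +
        (ga i + gb i) / 2
      have hAu : A = A1 ∪ A0 := by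
        ext i; rw [Finset.mem_union]; exact hA10 i
      have hdj : Disjoint A1 A0 := Finset.disjoint_left.2 hdis
      have hsum : ∑ i ∈ A, g i = (X1 + X0) / 2 + (∑ i ∈ A, ga i + ∑ i ∈ A, gb i) / 2 := by
        have e1 : ∑ i ∈ A, (if i ∈ A1 then Tr.avg (h i) r b else Tr.avg (h i) r a) = X1 + X0 := by
          rw [hAu, Finset.sum_union hdj, hX1, hX0]
          congr 1
          · exact Finset.sum_congr rfl fun i hi => if_pos hi
          · exact Finset.sum_congr rfl fun i hi =>
              if_neg fun hi' => hdis i hi' hi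
        have e2 : ∑ i ∈ A, g i = (∑ i ∈ A, (if i ∈ A1 then Tr.avg (h i) r b
            else Tr.avg (h i) r a)) / 2 + (∑ i ∈ A, ga i + ∑ i ∈ A, gb i) / 2 := by
          rw [← Finset.sum_add_distrib, Finset.sum_div, Finset.sum_div, ← Finset.sum_add_distrib]
        rw [e2, e1]
      refine ⟨g, ?_, ?_⟩
      · by_contra hcon
        push Not at hcon
        have c1 := hcon f hf
        have c2 := hcon fa (h1 _ hfa)
        have c3 := hcon fb (h2 _ hfb)
        rw [hsum] at c1 c2 c3
        push_cast at c1 c2 c3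
        have hr : (0 : ℝ) ≤ r := Nat.cast_nonneg r
        nlinarith [mul_nonneg hr (cost_nonneg (bad := bad) fa A),
          mul_nonneg hr (cost_nonneg (bad := bad) fb A)]
      · intro i hi α hα
        have hQa : 0 ≤ Tr.avg (fun x => h i x ^ 2) r a := avg_nonneg (fun _ => sq_nonneg _) r a
        have hQb : 0 ≤ Tr.avg (fun x => h i x ^ 2) r b := avg_nonneg (fun _ => sq_nonneg _) r b
        rw [avg_succ, avg_succ]
        change α * ((Tr.avg (h i) r a + Tr.avg (h i) r b) / 2) +
          ((if i ∈ A1 then Tr.avg (h i) r b else Tr.avg (h i) r a) / 2 + (ga i + gb i) / 2) ≤ _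
        by_cases hi1 : i ∈ A1
        · rw [if_pos hi1]
          have k1 := hga i hi α hα
          have k2 := hgb i hi (α + 1) (by linarith)
          have k3 := cs_two (ee_nonneg r hα) (ee_nonneg r (by linarith : (0 : ℝ) ≤ α + 1)) hQa hQb
          rw [ee_succ] at k3
          linarith
        · rw [if_neg hi1]
          have k1 := hga i hi (α + 1) (by linarith)
          have k2 := hgb i hi α hα
          have k3 := cs_two (ee_nonneg r (by linarith : (0 : ℝ) ≤ α + 1)) (ee_nonneg r hα) hQa hQb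
          rw [add_comm (ee r (α + 1)), ee_succ] at k3
          linarith

end Block

section Route

variable {ι E : Type} {Ach : Tr ι → (E → ι) → Prop} {bad : E → ι → Prop}

/-- **Routing lemma.** In a good tree which is complete to depth `k q`, every set of at most `2 ^ q`
items has an achievable assignment with few bad items. -/
theorem route {k : ℕ} (hk : 1 ≤ k) : ∀ (q : ℕ) (t : Tr ι), Tr.Good Ach t → Tr.Full (k * q) t →
    ∀ A : Finset E, A.card ≤ 2 ^ q →
      ∃ f, Ach t f ∧ cost bad f A ≤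
        ∑ i ∈ A, √((1 + 1 / (k : ℝ)) ^ q * Tr.avg (bt bad i) (k * q) t)
  | 0, t, hG, _, A, hA => by
      classical
      rw [pow_zero] at hA
      rw [Finset.card_le_one] at hA
      by_cases hbad : ∃ i ∈ A, ¬ ∀ l, Tr.Mem l t → bad i l
      · obtain ⟨i, hi, hl⟩ := hbad
        push Not at hl
        obtain ⟨l, hlt, hlb⟩ := hl
        refine ⟨_, ach_const hG hlt, ?_⟩
        have hAi : A = {i} := by
          ext j
          rw [Finset.mem_singleton]
          exact ⟨fun hj => hA j hj i hi, fun hj => hj ▸ hi⟩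
        have hc : cost bad (fun _ => l) A = 0 := by
          unfold cost
          rw [hAi, Finset.filter_singleton, if_neg hlb]
          simp
        rw [hc]
        exact Finset.sum_nonneg fun _ _ => Real.sqrt_nonneg _
      · push Not at hbad
        obtain ⟨f, hf⟩ := exists_ach hG
        refine ⟨f, hf, ?_⟩
        have e1 : cost bad f A ≤ ∑ i ∈ A, (1 : ℝ) := by
          rw [Finset.sum_const, nsmul_eq_mul, mul_one]
          unfold cost
          exact_mod_cast Finset.card_filter_le _ _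
        refine e1.trans (Finset.sum_le_sum fun i hi => ?_)
        have e2 : Tr.avg (bt bad i) (k * 0) t = 1 := by
          rw [Nat.mul_zero]
          change bt bad i t = 1
          unfold bt
          exact if_pos (hbad i hi)
        rw [e2, pow_zero, one_mul, Real.sqrt_one]
  | q + 1, t, hG, hF, A, hA => by
      have hk0 : (0 : ℝ) < k := by exact_mod_cast hk
      set K : ℝ := (1 + 1 / (k : ℝ)) ^ q with hK
      have hK0 : 0 ≤ K := by positivity
      let h : E → Tr ι → ℝ := fun i x => √(K * Tr.avg (bt bad i) (k * q) x)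
      have hF' : Tr.Full (k + k * q) t := by
        have e : k * (q + 1) = k + k * q := by ring
        rw [← e]; exact hF
      have hA' : A.card ≤ 2 * 2 ^ q := by rw [pow_succ] at hA; omega
      obtain ⟨g, ⟨f, hf, hcf⟩, hg⟩ := block (Ach := Ach) (bad := bad) (h := h)
        (fun i x => Real.sqrt_nonneg _) (fun x hx hFx B hB => route hk q x hx hFx B hB)
        k t hG hF' A hA'
      refine ⟨f, hf, ?_⟩
      have h1 : ∀ i ∈ A, g i ≤ (k : ℝ) / 2 *
          √((1 + 1 / (k : ℝ)) ^ (q + 1) * Tr.avg (bt bad i) (k * (q + 1)) t) := by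
        intro i hi
        have h2 := hg i hi 0 le_rfl
        rw [zero_mul, zero_add] at h2
        have e1 : Tr.avg (fun x => h i x ^ 2) k t =
            K * Tr.avg (bt bad i) (k * (q + 1)) t := by
          have e2 : (fun x => h i x ^ 2) = fun x => K * Tr.avg (bt bad i) (k * q) x := by
            funext x
            exact Real.sq_sqrt (mul_nonneg hK0 (avg_nonneg (fun _ => bt_nonneg _ _ _) _ _))
          have e3 : k * (q + 1) = k + k * q := by ring
          rw [e2, avg_mul, avg_avg, e3]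
        rw [e1] at h2
        refine h2.trans (le_of_eq ?_)
        have e4 : ee k 0 = ((k : ℝ) / 2) ^ 2 * (1 + 1 / (k : ℝ)) := by
          unfold ee
          field_simp
          ring
        rw [e4, Real.sqrt_mul (by positivity), Real.sqrt_sq (by positivity), mul_assoc,
          ← Real.sqrt_mul (by positivity), pow_succ, hK]
        congr 2
        ring
      have h2 : ∑ i ∈ A, g i ≤ (k : ℝ) / 2 *
          ∑ i ∈ A, √((1 + 1 / (k : ℝ)) ^ (q + 1) * Tr.avg (bt bad i) (k * (q + 1)) t) := by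
        rw [Finset.mul_sum]
        exact Finset.sum_le_sum h1
      have h3 : (k : ℝ) * cost bad f A ≤ k *
          ∑ i ∈ A, √((1 + 1 / (k : ℝ)) ^ (q + 1) * Tr.avg (bt bad i) (k * (q + 1)) t) := by
        linarith
      exact le_of_mul_le_mul_left h3 hk0

end Route

end Pool.Agent.H9.RQ
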