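import Mathlib

/-!
# RQ: binary trees (MP_bd0985_co)

Binary trees of sites, complete trees, averages over the nodes of a given depth (helper9).
-/

set_option autoImplicit false

namespace Pool.Agent.H9.RQ

/-- Binary trees with leaves in `ι`. -/
inductive Tr (ι : Type) : Type
  | leaf : ι → Tr ι
  | node : Tr ι → Tr ι → Tr ι

namespace Tr

variable {ι E : Type}

/-- `l` is a leaf of the tree. -/
def Mem (l : ι) : Tr ι → Prop
  | leaf k => l = k
  | node a b => Mem l a ∨ Mem l b

/-- The tree is complete down to depth `d`. -/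
def Full : ℕ → Tr ι → Prop
  | 0, _ => True
  | _ + 1, leaf _ => False
  | d + 1, node a b => Full d a ∧ Full d b

/-- Average of `g` over the nodes at depth `d`. -/
noncomputable def avg (g : Tr ι → ℝ) : ℕ → Tr ι → ℝ
  | 0, t => g t
  | _ + 1, leaf l => g (leaf l)
  | d + 1, node a b => (avg g d a + avg g d b) / 2

/-- `w` is a node at depth `d` of the tree. -/
def Desc (w : Tr ι) : ℕ → Tr ι → Prop
  | 0, t => w = t
  | _ + 1, leaf _ => False
  | d + 1, node a b => Desc w d a ∨ Desc w d b

/-- Every node `t` is good for the assignments `Ach t`: constant assignments to a leaf are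
achievable, assignments of the two children are achievable, and every finite set of items can be
halved such that one half follows an achievable assignment of the right child and the other half
follows an achievable assignment of the left child. -/
def Good (Ach : Tr ι → (E → ι) → Prop) : Tr ι → Prop
  | leaf l => Ach (leaf l) fun _ => l
  | node a b => Good Ach a ∧ Good Ach b ∧ (∀ f, Ach a f → Ach (node a b) f) ∧
      (∀ f, Ach b f → Ach (node a b) f) ∧
      ∀ A : Finset E, ∃ A1 A0 : Finset E, (∀ i, i ∈ A ↔ (i ∈ A1 ∨ i ∈ A0)) ∧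
        (∀ i, i ∈ A1 → i ∉ A0) ∧ 2 * A1.card ≤ A.card + 1 ∧ 2 * A0.card ≤ A.card + 1 ∧
        ∀ f0 f1, Ach a f0 → Ach b f1 → ∃ f, Ach (node a b) f ∧ (∀ i ∈ A1, f i = f1 i) ∧
          ∀ i ∈ A0, f i = f0 i

end Tr

end Pool.Agent.H9.RQ
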